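import Mathlib

set_option autoImplicit false

/-!
Functions of several arguments: similarity, identification minors, decks, content and singletons.
-/

namespace Pool.Agent.X238.Rec

open Finset Function

universe u v

variable {A : Type u} {B : Type v} {n : ℕ}

/-- `f ≃ g`: the functions differ by a permutation of the arguments. -/
def Similar (f g : (Fin n → A) → B) : Prop :=
  ∃ τ : Equiv.Perm (Fin n), ∀ a : Fin n → A, f a = g (fun i => a (τ i))

/-- Similarity as a setoid. -/
def simSetoid (A : Type u) (B : Type v) (n : ℕ) : Setoid ((Fin n → A) → B) where
  r := Similar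
  iseqv :=
    { refl := fun f => ⟨Equiv.refl _, fun a => rfl⟩
      symm := by
        rintro f g ⟨τ, h⟩
        refine ⟨τ.symm, fun a => ?_⟩
        rw [h]
        congr 1
        funext i
        simp
      trans := by
        rintro f g k ⟨τ, h⟩ ⟨ρ, h'⟩
        refine ⟨ρ.trans τ, fun a => ?_⟩
        rw [h, h']
        rfl }

/-- The content: the multiset of the entries. -/
def content (a : Fin n → A) : Multiset A := (List.ofFn a : Multiset A)

open Classical in
/-- The tuple of the singletons (the elements that occur exactly once), in their order of
occurrence. -/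
noncomputable def sing (a : Fin n → A) : List A :=
  (List.ofFn a).filter (fun x => decide ((List.ofFn a).count x = 1))

/-- `f` is determined by content and singletons. -/
def DetCS (f : (Fin n → A) → B) : Prop :=
  ∀ a b : Fin n → A, content a = content b → sing a = sing b → f a = f b

/-- The identification minor `f_I`, `I = {i, j}`, `i < j`: the entry number `i` is inserted at the
place number `j`. -/
def minor (f : (Fin (n + 1) → A) → B) (i j : Fin (n + 1)) (h : i < j) : (Fin n → A) → B :=
  fun a => f (Fin.insertNth (α := fun _ => A) j (a ⟨i.1, by have := j.2; have := Fin.lt_def.1 h; omega⟩) a)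

/-- The deck: the multiset of the similarity classes of the minors. -/
noncomputable def deck (f : (Fin (n + 1) → A) → B) : Multiset (Quotient (simSetoid A B n)) :=
  (Finset.univ : Finset {p : Fin (n + 1) × Fin (n + 1) // p.1 < p.2}).val.map
    (fun p => Quotient.mk (simSetoid A B n) (minor f p.1.1 p.1.2 p.2))

/-- The place `p` carries a singleton of `c`. -/
def Single (c : Fin n → A) (p : Fin n) : Prop := ∀ q, c q = c p → q = p

open Classical in
theorem count_eq (c : Fin n → A) (x : A) :
    (List.ofFn c).count x = (univ.filter fun q => x = c q).card := by
  rw [← Multiset.coe_count, ← Fin.univ_val_map, Multiset.count_map]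
  rfl

open Classical in
theorem count_one (c : Fin n → A) (p : Fin n) :
    (List.ofFn c).count (c p) = 1 ↔ Single c p := by
  rw [count_eq, Finset.card_eq_one]
  constructor
  · rintro ⟨r, hr⟩ q hq
    have h1 : p ∈ univ.filter fun q => c p = c q := by simp
    have h2 : q ∈ univ.filter fun q => c p = c q := by simp [hq]
    rw [hr, Finset.mem_singleton] at h1 h2
    rw [h1, h2]
  · intro h
    refine ⟨p, ?_⟩
    ext q
    simp only [mem_filter, mem_univ, true_and, mem_singleton]
    exact ⟨fun h' => h q h'.symm, fun h' => by rw [h']⟩

open Classical in
theorem sing_eq (c : Fin n → A) :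
    sing c = ((List.finRange n).filter (fun p => decide (Single c p))).map c := by
  unfold sing
  have h : List.ofFn c = (List.finRange n).map c := by
    rw [List.ofFn_eq_map]
  conv_lhs => rw [h]
  rw [List.filter_map]
  congr 1
  apply List.filter_congr
  intro p _
  simp only [Function.comp]
  congr 1
  rw [← h]
  exact propext (count_one c p)

theorem content_perm (c : Fin n → A) (π : Equiv.Perm (Fin n)) :
    content (fun p => c (π p)) = content c := by
  unfold content
  rw [← Fin.univ_val_map, ← Fin.univ_val_map]
  have : (univ : Finset (Fin n)).val.map (fun p => c (π p)) =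
      (((univ : Finset (Fin n)).val.map π).map c) := by
    rw [Multiset.map_map]
    rfl
  rw [this]
  congr 1
  have h2 : (univ : Finset (Fin n)).val.map π = (univ.map π.toEmbedding).val := by
    rw [Finset.map_val]
    rfl
  rw [h2, Finset.map_univ_equiv]

theorem single_perm (c : Fin n → A) (π : Equiv.Perm (Fin n)) (p : Fin n) :
    Single (fun p => c (π p)) p ↔ Single c (π p) := by
  unfold Single
  constructor
  · intro h q hq
    have := h (π.symm q) (by simpa using hq)
    rw [← this]
    simp
  · intro h q hq
    exact π.injective (h (π q) hq)

theorem sing_perm (c : Fin n → A) (π : Equiv.Perm (Fin n))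
    (hπ : ∀ p q, Single c (π p) → Single c (π q) → p < q → π p < π q) :
    sing (fun p => c (π p)) = sing c := by
  classical
  rw [sing_eq, sing_eq]
  have h1 : ((List.finRange n).filter (fun p => decide (Single (fun p => c (π p)) p))).map
      (fun p => c (π p)) =
      (((List.finRange n).filter (fun p => decide (Single c (π p)))).map π).map c := by
    rw [List.map_map]
    congr 1
    apply List.filter_congr
    intro p _
    rw [decide_eq_decide]
    exact single_perm c π p
  rw [h1]
  congr 1
  have hs1 : (((List.finRange n).filter (fun p => decide (Single c (π p)))).map π).Pairwise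
      (· < ·) := by
    rw [List.pairwise_map]
    have hp : ((List.finRange n).filter (fun p => decide (Single c (π p)))).Pairwise (· < ·) :=
      (List.pairwise_lt_finRange n).filter _
    refine List.Pairwise.imp_of_mem ?_ hp
    intro a b ha hb hab
    have ha' := List.mem_filter.1 ha
    have hb' := List.mem_filter.1 hb
    exact hπ a b (by simpa using ha'.2) (by simpa using hb'.2) hab
  have hs2 : ((List.finRange n).filter (fun p => decide (Single c p))).Pairwise (· < ·) :=
    (List.pairwise_lt_finRange n).filter _
  refine List.Perm.eq_of_pairwise (le := (· < ·)) ?_ hs1 hs2 ?_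
  · intro a b _ _ h1 h2
    exact absurd h1 (not_lt.2 h2.le)
  · rw [List.perm_ext_iff_of_nodup]
    · intro a
      simp only [List.mem_map, List.mem_filter, List.mem_finRange, true_and, decide_eq_true_eq]
      constructor
      · rintro ⟨b, hb, rfl⟩
        exact hb
      · intro h
        exact ⟨π.symm a, by simpa using h, by simp⟩
    · exact hs1.imp (fun h => ne_of_lt h)
    · exact hs2.imp (fun h => ne_of_lt h)

theorem detCS_perm {f : (Fin n → A) → B} (hf : DetCS f) (c : Fin n → A)
    (π : Equiv.Perm (Fin n))
    (hπ : ∀ p q, Single c (π p) → Single c (π q) → p < q → π p < π q) :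
    f (fun p => c (π p)) = f c :=
  hf _ _ (content_perm c π) (sing_perm c π hπ)

end Pool.Agent.X238.Rec
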