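import Mathlib
import Pool.Agent.X238.Rec.Basic

set_option autoImplicit false

/-!
Infinite sets: two functions with the same deck.
-/

namespace Pool.Agent.X238.Rec

open Finset Function

universe u v

variable {A : Type u} {B : Type v} {n : ℕ}

theorem infinite_case [Infinite A] [Nontrivial B] (_hn : 1 ≤ n) :
    ∃ f g : (Fin (n + 1) → A) → B, DetCS f ∧ DetCS g ∧ deck f = deck g ∧ ¬ Similar f g := by
  classical
  obtain ⟨b0, b1, hb⟩ := exists_pair_ne B
  obtain ⟨a0, ha0⟩ : ∃ a0 : Fin (n + 1) → A, Injective a0 :=
    ⟨fun i => Infinite.natEmbedding A i.1, fun i j h => Fin.ext ((Infinite.natEmbedding A).injective h)⟩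
  set f : (Fin (n + 1) → A) → B := fun _ => b0 with hf
  set g : (Fin (n + 1) → A) → B := fun a => if a = a0 then b1 else b0 with hg
  have hsing : ∀ a : Fin (n + 1) → A, Injective a → sing a = List.ofFn a := by
    intro a ha
    unfold sing
    rw [List.filter_eq_self]
    intro x hx
    obtain ⟨i, rfl⟩ := (List.mem_ofFn' a x).1 hx
    rw [decide_eq_true_eq, count_one]
    intro q hq
    exact ha hq
  have hinj : ∀ a b : Fin (n + 1) → A, content a = content b → Injective a → Injective b := by
    intro a b hab ha
    have h1 : (List.ofFn a).Nodup := List.nodup_ofFn.2 ha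
    have h2 : (List.ofFn b).Nodup := by
      have : List.Perm (List.ofFn a) (List.ofFn b) := Multiset.coe_eq_coe.1 hab
      exact this.nodup_iff.1 h1
    exact List.nodup_ofFn.1 h2
  have key : ∀ a b : Fin (n + 1) → A, content a = content b → sing a = sing b → a = a0 →
      b = a0 := by
    intro a b h1 h2 ha
    subst ha
    have hb' := hinj a b h1 ha0
    rw [hsing a ha0, hsing b hb'] at h2
    exact (List.ofFn_injective h2).symm
  refine ⟨f, g, fun a b _ _ => rfl, ?_, ?_, ?_⟩
  · intro a b h1 h2
    show (if a = a0 then b1 else b0) = (if b = a0 then b1 else b0)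
    by_cases ha : a = a0
    · rw [if_pos ha, if_pos (key a b h1 h2 ha)]
    · by_cases hb' : b = a0
      · exact absurd (key b a h1.symm h2.symm hb') ha
      · rw [if_neg ha, if_neg hb']
  · have hm : ∀ (i j : Fin (n + 1)) (h : i < j), minor f i j h = minor g i j h := by
      intro i j h
      funext a
      show b0 = if _ = a0 then b1 else b0
      rw [if_neg]
      intro h'
      have hij : i.1 < j.1 := h
      have e1 := congrFun h' j
      rw [Fin.insertNth_apply_same] at e1
      have hne : i ≠ j := ne_of_lt h
      obtain ⟨p, hp⟩ := Fin.exists_succAbove_eq hne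
      have e2 := congrFun h' (j.succAbove p)
      rw [Fin.insertNth_apply_succAbove] at e2
      have hpi : p = ⟨i.1, by have := j.2; omega⟩ := by
        apply Fin.ext
        have h3 := congrArg Fin.val hp
        simp only [Fin.succAbove, Fin.lt_def, Fin.val_castSucc] at h3
        split_ifs at h3 with h4
        · simpa using h3
        · simp only [Fin.val_succ] at h3
          omega
      rw [hp, hpi, e1] at e2
      exact hne (ha0 e2).symm
    unfold deck
    congr 1
    funext p
    rw [hm]
  · rintro ⟨τ, h⟩
    have h1 := h (fun i => a0 (τ.symm i))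
    have h2 : (fun i => a0 (τ.symm (τ i))) = a0 := by
      funext i
      simp
    have h3 : g (fun i => a0 (τ.symm (τ i))) = b1 := by
      rw [h2]
      show (if a0 = a0 then b1 else b0) = b1
      rw [if_pos rfl]
    rw [h3] at h1
    exact hb h1

end Pool.Agent.X238.Rec
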