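import Mathlib
import Pool.Agent.X238.Rec.Basic
import Pool.Agent.H184R3.ES

set_option autoImplicit false

/-!
Functions determined by content and singletons over a finite set: weak reconstructibility.
-/

namespace Pool.Agent.X238.Rec

open Finset Function

universe u v

variable {A : Type u} {B : Type v} {n : ℕ}

theorem exists_perm_of {J X : Type*} [Finite X] (p q : J → X) (hp : Injective p)
    (hq : Injective q) : ∃ π : Equiv.Perm X, ∀ j, π (p j) = q j := by
  classical
  let e : {x // x ∈ Set.range p} ≃ {x // x ∈ Set.range q} :=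
    (Equiv.ofInjective p hp).symm.trans (Equiv.ofInjective q hq)
  refine ⟨e.extendSubtype, fun j => ?_⟩
  rw [Equiv.extendSubtype_apply_of_mem (e := e) (x := p j) (hx := ⟨j, rfl⟩)]
  have h1 : (⟨p j, ⟨j, rfl⟩⟩ : {x // x ∈ Set.range p}) = Equiv.ofInjective p hp j := rfl
  rw [h1]
  simp [e]

/-- Prescribing the places. -/
theorem exists_place [Finite A] (hn : 3 ≤ n) (h2 : 2 * Nat.card A < n + 1)
    (c : Fin (n + 1) → A) (t : Fin n) {m : ℕ} (u : Fin m → Fin n) (hu : Injective u)
    (hu0 : ∀ l, (u l).1 ≠ 0) (hut : ∀ l, u l ≠ t) (e : Fin m → Fin (n + 1)) (he : Injective e)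
    (hes : ∀ l, Single c (e l)) :
    ∃ (x : A) (π : Equiv.Perm (Fin (n + 1))), ¬ (∃ p, Single c p ∧ c p = x) ∧
      c (π 1) = x ∧ c (π (Fin.succAbove 1 ⟨0, by omega⟩)) = x ∧
      c (π (Fin.succAbove 1 t)) = x ∧ ∀ l, π (Fin.succAbove 1 (u l)) = e l := by
  classical
  have : Fintype A := Fintype.ofFinite A
  obtain ⟨x, hx⟩ := Fintype.exists_lt_card_fiber_of_mul_lt_card c (n := 2)
    (by rw [Fintype.card_fin, ← Nat.card_eq_fintype_card]; omega)
  rw [Finset.two_lt_card] at hx
  obtain ⟨x0, hx0, x1, hx1, x2, hx2, h01, h02, h12⟩ := hx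
  simp only [mem_filter, mem_univ, true_and] at hx0 hx1 hx2
  have hns : ¬ (∃ p, Single c p ∧ c p = x) := by
    rintro ⟨p, hp, hpx⟩
    have a0 := hp x0 (by rw [hx0, hpx])
    have a1 := hp x1 (by rw [hx1, hpx])
    exact h01 (by rw [a0, a1])
  have hex : ∀ l (y : Fin (n + 1)), c y = x → e l ≠ y := by
    intro l y hy h
    exact hns ⟨e l, hes l, by rw [h, hy]⟩
  have hsi : Injective (Fin.succAbove (1 : Fin (n + 1))) := Fin.succAbove_right_injective
  by_cases ht : t.1 = 0
  · have ht' : t = ⟨0, by omega⟩ := Fin.ext ht
    obtain ⟨π, hπ⟩ := exists_perm_of (J := Bool ⊕ Fin m)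
      (Sum.elim (fun b => if b then (1 : Fin (n + 1)) else Fin.succAbove 1 ⟨0, by omega⟩)
        (fun l => Fin.succAbove 1 (u l)))
      (Sum.elim (fun b => if b then x0 else x1) e) (by
        rintro (a | a) (b | b) h
        · rcases a with _ | _ <;> rcases b with _ | _ <;> simp at h ⊢
          all_goals first
            | exact absurd h (Fin.succAbove_ne _ _)
            | exact absurd h.symm (Fin.succAbove_ne _ _)
        · rcases a with _ | _
          · simp at h
            exact absurd (congrArg Fin.val h).symm (hu0 b)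
          · simp at h
        · rcases b with _ | _
          · simp at h
            exact absurd (congrArg Fin.val h) (hu0 a)
          · simp at h
        · simp at h
          rw [hu h]) (by
        rintro (a | a) (b | b) h
        · rcases a with _ | _ <;> rcases b with _ | _ <;> simp at h ⊢
          · exact h01 h.symm
          · exact h01 h
        · rcases a with _ | _
          · simp at h
            exact absurd h.symm (hex b x1 hx1)
          · simp at h
            exact absurd h.symm (hex b x0 hx0)
        · rcases b with _ | _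
          · simp at h
            exact absurd h (hex a x1 hx1)
          · simp at h
            exact absurd h (hex a x0 hx0)
        · simp at h
          rw [he h])
    have e0 := hπ (Sum.inl true)
    have e1 := hπ (Sum.inl false)
    simp only [Sum.elim_inl, if_true, if_false, Bool.false_eq_true, ↓reduceIte] at e0 e1
    refine ⟨x, π, hns, by rw [e0, hx0], by rw [e1, hx1], by rw [ht', e1, hx1], fun l => ?_⟩
    exact hπ (Sum.inr l)
  · obtain ⟨π, hπ⟩ := exists_perm_of (J := Option Bool ⊕ Fin m)
      (Sum.elim (fun b => match b with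
        | none => Fin.succAbove 1 t
        | some true => (1 : Fin (n + 1))
        | some false => Fin.succAbove 1 ⟨0, by omega⟩)
        (fun l => Fin.succAbove 1 (u l)))
      (Sum.elim (fun b => match b with
        | none => x2
        | some true => x0
        | some false => x1) e) (by
        have ht0 : t ≠ ⟨0, by omega⟩ := fun h => ht (congrArg Fin.val h)
        rintro (a | a) (b | b) h
        · rcases a with _ | _ | _ <;> rcases b with _ | _ | _ <;> simp at h ⊢
          all_goals first
            | exact absurd h (Fin.succAbove_ne _ _)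
            | exact absurd h.symm (Fin.succAbove_ne _ _)
            | exact absurd (hsi h) ht0
            | exact absurd (hsi h).symm ht0
            | exact absurd h ht0
            | exact absurd h.symm ht0
        · rcases a with _ | _ | _
          · simp at h
            exact absurd h.symm (hut b)
          · simp at h
            exact absurd (congrArg Fin.val h).symm (hu0 b)
          · simp at h
        · rcases b with _ | _ | _
          · simp at h
            exact absurd h (hut a)
          · simp at h
            exact absurd (congrArg Fin.val h) (hu0 a)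
          · simp at h
        · simp at h
          rw [hu h]) (by
        rintro (a | a) (b | b) h
        · rcases a with _ | _ | _ <;> rcases b with _ | _ | _ <;> simp at h ⊢
          all_goals first
            | exact h01 h
            | exact h01 h.symm
            | exact h02 h
            | exact h02 h.symm
            | exact h12 h
            | exact h12 h.symm
        · rcases a with _ | _ | _
          · simp at h
            exact absurd h.symm (hex b x2 hx2)
          · simp at h
            exact absurd h.symm (hex b x1 hx1)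
          · simp at h
            exact absurd h.symm (hex b x0 hx0)
        · rcases b with _ | _ | _
          · simp at h
            exact absurd h (hex a x2 hx2)
          · simp at h
            exact absurd h (hex a x1 hx1)
          · simp at h
            exact absurd h (hex a x0 hx0)
        · simp at h
          rw [he h])
    have e0 := hπ (Sum.inl (some true))
    have e1 := hπ (Sum.inl (some false))
    have e2 := hπ (Sum.inl none)
    simp only [Sum.elim_inl] at e0 e1 e2
    refine ⟨x, π, hns, by rw [e0, hx0], by rw [e1, hx1], by rw [e2, hx2], fun l => ?_⟩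
    exact hπ (Sum.inr l)

/-- The permutation `j ↦ π 1`, `succAbove j p ↦ π (succAbove 1 (τ p))`. -/
def glue (π : Equiv.Perm (Fin (n + 1))) (τ : Equiv.Perm (Fin n)) (j : Fin (n + 1)) :
    Equiv.Perm (Fin (n + 1)) :=
  ((finSuccEquiv' j).trans (Equiv.optionCongr τ)).trans ((finSuccEquiv' 1).symm.trans π)

theorem glue_at (π : Equiv.Perm (Fin (n + 1))) (τ : Equiv.Perm (Fin n)) (j : Fin (n + 1)) :
    glue π τ j j = π 1 := by
  simp [glue]

theorem glue_above (π : Equiv.Perm (Fin (n + 1))) (τ : Equiv.Perm (Fin n)) (j : Fin (n + 1))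
    (p : Fin n) : glue π τ j (j.succAbove p) = π (Fin.succAbove 1 (τ p)) := by
  simp [glue]

/-- The comparison of `f` and `g` on one tuple. -/
theorem step [Finite A] (hn : 3 ≤ n) (h2 : 2 * Nat.card A < n + 1)
    {f g : (Fin (n + 1) → A) → B} (hf : DetCS f) (hg : DetCS g) (i j : Fin (n + 1)) (hij : i < j)
    (τ : Equiv.Perm (Fin n))
    (hτ : ∀ a : Fin n → A, f (Fin.insertNth (α := fun _ => A) 1 (a ⟨0, by omega⟩) a) =
      minor g i j hij (fun l => a (τ l)))
    (P : Finset (Fin n)) (hP : Nat.card A ≤ P.card) (hP0 : ∀ p ∈ P, p.1 ≠ 0)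
    (hPt : ∀ p ∈ P, p ≠ τ ⟨i.1, by have := j.2; have := Fin.lt_def.1 hij; omega⟩)
    (c : Fin (n + 1) → A) :
    (StrictMonoOn τ.symm (P : Set (Fin n)) → f c = g c) ∧
    (StrictAntiOn τ.symm (P : Set (Fin n)) → f c = g (fun q => c (Fin.rev q))) := by
  classical
  have : Fintype A := Fintype.ofFinite A
  set t : Fin n := τ ⟨i.1, by have := j.2; have := Fin.lt_def.1 hij; omega⟩ with ht
  set S : Finset (Fin (n + 1)) := univ.filter fun p => Single c p with hS
  have hScard : S.card ≤ Nat.card A := by
    rw [Nat.card_eq_fintype_card, ← Finset.card_univ]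
    refine Finset.card_le_card_of_injOn c (fun _ _ => mem_coe.2 (mem_univ _)) ?_
    intro p hp q hq hpq
    exact (mem_filter.1 hq).2 p hpq
  set e : Fin S.card ↪o Fin (n + 1) := S.orderEmbOfFin rfl with he
  have hemem : ∀ l, e l ∈ S := fun l => S.orderEmbOfFin_mem rfl l
  have hesurj : ∀ p ∈ S, ∃ l, e l = p := by
    intro p hp
    have : p ∈ Set.range e := by
      rw [he, Finset.range_orderEmbOfFin]
      exact hp
    exact this
  set w : Fin S.card ↪o Fin n := P.orderEmbOfCardLe (hScard.trans hP) with hw
  have hwmem : ∀ l, w l ∈ P := fun l => P.orderEmbOfCardLe_mem _ l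
  obtain ⟨x, π, hns, hπ1, hπ0, hπt, hπ⟩ := exists_place hn h2 c t (fun l => w l) w.injective
    (fun l => hP0 _ (hwmem l)) (fun l => hPt _ (hwmem l)) (fun l => e l) e.injective
    (fun l => (mem_filter.1 (hemem l)).2)
  set s : Fin n → Fin (n + 1) := Fin.succAbove 1 with hs
  have hsi : Injective s := Fin.succAbove_right_injective
  set a : Fin n → A := fun p => c (π (s p)) with ha
  -- the side of `f`
  have hins : (Fin.insertNth (α := fun _ => A) 1 (a ⟨0, by omega⟩) a : Fin (n + 1) → A) =
      fun q => c (π q) := by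
    rw [Fin.insertNth_eq_iff]
    refine ⟨?_, rfl⟩
    show c (π (s ⟨0, _⟩)) = c (π 1)
    rw [hπ1, hs]
    exact hπ0
  have hfc : f (fun q => c (π q)) = f c := by
    refine detCS_perm hf c π ?_
    intro p q hp hq hpq
    obtain ⟨l, hl⟩ := hesurj (π p) (by rw [hS, mem_filter]; exact ⟨mem_univ _, hp⟩)
    obtain ⟨l', hl'⟩ := hesurj (π q) (by rw [hS, mem_filter]; exact ⟨mem_univ _, hq⟩)
    have e1 : p = s (w l) := by
      apply π.injective
      rw [← hl]
      exact (hπ l).symm
    have e2 : q = s (w l') := by
      apply π.injective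
      rw [← hl']
      exact (hπ l').symm
    rw [e1, e2, hs, Fin.succAbove_lt_succAbove_iff] at hpq
    rw [← hl, ← hl']
    exact e.strictMono (w.lt_iff_lt.1 hpq)
  -- the side of `g`
  have hgc : minor g i j hij (fun l => a (τ l)) = g (fun q => c (glue π τ j q)) := by
    unfold minor
    congr 1
    rw [Fin.insertNth_eq_iff]
    constructor
    · show c (π (s (τ ⟨i.1, _⟩))) = c (glue π τ j j)
      rw [glue_at, hπ1]
      exact hπt
    · funext p
      show c (π (s (τ p))) = c (glue π τ j (j.succAbove p))
      rw [glue_above]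
  have hmain : f c = g (fun q => c (glue π τ j q)) := by
    rw [← hfc, ← hins, hτ a, hgc]
  -- the order of the singletons on the side of `g`
  have hord : ∀ q q', Single c (glue π τ j q) → Single c (glue π τ j q') → q < q' →
      ∃ l l', glue π τ j q = e l ∧ glue π τ j q' = e l' ∧ τ.symm (w l) < τ.symm (w l') := by
    have key : ∀ q, Single c (glue π τ j q) → ∃ l, glue π τ j q = e l ∧
        q = j.succAbove (τ.symm (w l)) := by
      intro q hq
      obtain ⟨l, hl⟩ := hesurj (glue π τ j q) (by rw [hS, mem_filter]; exact ⟨mem_univ _, hq⟩)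
      have hqj : q ≠ j := by
        rintro rfl
        rw [glue_at] at hq
        exact hns ⟨_, hq, hπ1⟩
      obtain ⟨p, rfl⟩ := Fin.exists_succAbove_eq hqj
      refine ⟨l, hl.symm, ?_⟩
      rw [glue_above] at hl
      have h1 : Fin.succAbove 1 (τ p) = s (w l) := by
        apply π.injective
        rw [← hl]
        exact (hπ l).symm
      have h3 : τ p = w l := hsi h1
      rw [← h3]
      simp
    intro q q' hq hq' hqq
    obtain ⟨l, hl, hl2⟩ := key q hq
    obtain ⟨l', hl', hl2'⟩ := key q' hq'
    refine ⟨l, l', hl, hl', ?_⟩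
    rw [hl2, hl2', Fin.succAbove_lt_succAbove_iff] at hqq
    exact hqq
  constructor
  · intro hmono
    rw [hmain]
    refine detCS_perm hg c (glue π τ j) ?_
    intro q q' hq hq' hqq
    obtain ⟨l, l', hl, hl', hlt⟩ := hord q q' hq hq' hqq
    rw [hl, hl']
    have := (hmono.lt_iff_lt (mem_coe.2 (hwmem l)) (mem_coe.2 (hwmem l'))).1 hlt
    exact e.strictMono (w.lt_iff_lt.1 this)
  · intro hanti
    rw [hmain]
    have h3 := detCS_perm hg (fun q => c (Fin.rev q)) ((glue π τ j).trans Fin.revPerm) (by
      intro q q' hq hq' hqq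
      have hq1 : Single c (glue π τ j q) := by
        have := (single_perm c Fin.revPerm _).1 hq
        simpa using this
      have hq2 : Single c (glue π τ j q') := by
        have := (single_perm c Fin.revPerm _).1 hq'
        simpa using this
      obtain ⟨l, l', hl, hl', hlt⟩ := hord q q' hq1 hq2 hqq
      have := (hanti.lt_iff_gt (mem_coe.2 (hwmem l)) (mem_coe.2 (hwmem l'))).1 hlt
      have h4 : e l' < e l := e.strictMono (w.lt_iff_lt.1 this)
      simp only [Equiv.trans_apply, Fin.revPerm_apply, Fin.rev_lt_rev, hl, hl']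
      exact h4)
    rw [← h3]
    congr 1
    funext q
    simp

theorem weak_rec [Finite A] (hn : Nat.card A ^ 2 + 4 ≤ n + 1) {f g : (Fin (n + 1) → A) → B}
    (hf : DetCS f) (hg : DetCS g) (hd : deck f = deck g) :
    (∀ a, f a = g a) ∨ (∀ a, f a = g (fun q => a (Fin.rev q))) := by
  classical
  have : Fintype A := Fintype.ofFinite A
  set k := Nat.card A with hk
  have hn3 : 3 ≤ n := by omega
  have h2 : 2 * k < n + 1 := by nlinarith [sq_nonneg ((k : ℤ) - 1), sq_nonneg (k - 1)]
  have h01 : (0 : Fin (n + 1)) < 1 := by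
    rw [Fin.lt_def, Fin.val_one', Nat.mod_eq_of_lt (by omega)]
    simp
  have hmem : Quotient.mk (simSetoid A B n) (minor f 0 1 h01) ∈ deck f := by
    unfold deck
    rw [Multiset.mem_map]
    exact ⟨⟨(0, 1), h01⟩, mem_univ _, rfl⟩
  rw [hd] at hmem
  unfold deck at hmem
  rw [Multiset.mem_map] at hmem
  obtain ⟨⟨⟨i, j⟩, hij⟩, -, hq⟩ := hmem
  have hsim : Similar (minor g i j hij) (minor f 0 1 h01) := Quotient.exact hq
  have hsim' : Similar (minor f 0 1 h01) (minor g i j hij) :=
    (simSetoid A B n).iseqv.symm hsim
  obtain ⟨τ, hτ⟩ := hsim'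
  have hij' : i < j := hij
  set t : Fin n := τ ⟨i.1, by have := j.2; have := Fin.lt_def.1 hij'; omega⟩ with ht
  let X := {p : Fin n // p.1 ≠ 0 ∧ p ≠ t}
  have hX : k * k < Fintype.card X := by
    have h1 : Fintype.card X = (univ.filter fun p : Fin n => p.1 ≠ 0 ∧ p ≠ t).card :=
      Fintype.card_subtype _
    rw [h1]
    have h3 : (univ : Finset (Fin n)) ⊆ (univ.filter fun p : Fin n => p.1 ≠ 0 ∧ p ≠ t) ∪
        {⟨0, by omega⟩, t} := by
      intro p _
      simp only [mem_union, mem_filter, mem_univ, true_and, mem_insert, mem_singleton]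
      by_cases hp : p.1 = 0
      · right
        left
        exact Fin.ext hp
      · by_cases hp' : p = t
        · right
          right
          exact hp'
        · left
          exact ⟨hp, hp'⟩
    have h4 := Finset.card_le_card h3
    rw [Finset.card_univ, Fintype.card_fin] at h4
    have h5 := Finset.card_union_le (univ.filter fun p : Fin n => p.1 ≠ 0 ∧ p ≠ t)
      {(⟨0, by omega⟩ : Fin n), t}
    have h6 : ({(⟨0, by omega⟩ : Fin n), t} : Finset (Fin n)).card ≤ 2 := Finset.card_le_two
    have h7 : k * k = k ^ 2 := by ring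
    omega
  have hinj : Injective (fun p : X => τ.symm p.1) := by
    intro p q h
    exact Subtype.ext (τ.symm.injective h)
  have hτ' : ∀ a : Fin n → A, f (Fin.insertNth (α := fun _ => A) 1 (a ⟨0, by omega⟩) a) =
      minor g i j hij' (fun l => a (τ l)) := fun a => hτ a
  rcases Pool.Agent.H184R3.ES.erdos_szekeres hX hinj with ⟨T, hT, hmono⟩ | ⟨T, hT, hanti⟩
  · left
    intro c
    refine (step hn3 h2 hf hg i j hij' τ hτ' (T.map (Function.Embedding.subtype _))
      (by rw [card_map]; omega) ?_ ?_ c).1 ?_
    · intro p hp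
      obtain ⟨q, _, rfl⟩ := mem_map.1 hp
      exact q.2.1
    · intro p hp
      obtain ⟨q, _, rfl⟩ := mem_map.1 hp
      exact q.2.2
    · intro p hp q hq hpq
      obtain ⟨p', hp', rfl⟩ := mem_map.1 (mem_coe.1 hp)
      obtain ⟨q', hq', rfl⟩ := mem_map.1 (mem_coe.1 hq)
      exact hmono (mem_coe.2 hp') (mem_coe.2 hq') hpq
  · right
    intro c
    refine (step hn3 h2 hf hg i j hij' τ hτ' (T.map (Function.Embedding.subtype _))
      (by rw [card_map]; omega) ?_ ?_ c).2 ?_
    · intro p hp
      obtain ⟨q, _, rfl⟩ := mem_map.1 hp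
      exact q.2.1
    · intro p hp
      obtain ⟨q, _, rfl⟩ := mem_map.1 hp
      exact q.2.2
    · intro p hp q hq hpq
      obtain ⟨p', hp', rfl⟩ := mem_map.1 (mem_coe.1 hp)
      obtain ⟨q', hq', rfl⟩ := mem_map.1 (mem_coe.1 hq)
      exact hanti (mem_coe.2 hp') (mem_coe.2 hq') hpq

theorem weak_rec_similar [Finite A] (hn : Nat.card A ^ 2 + 4 ≤ n + 1)
    {f g : (Fin (n + 1) → A) → B} (hf : DetCS f) (hg : DetCS g) (hd : deck f = deck g) :
    Similar f g := by
  rcases weak_rec hn hf hg hd with h | h
  · exact ⟨Equiv.refl _, h⟩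
  · exact ⟨Fin.revPerm, h⟩

end Pool.Agent.X238.Rec
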